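import Mathlib
import Pool.Agent.LeoG.AlgStmts

/-!
# Squad LEOG, module IRG
-/

set_option autoImplicit false

namespace Pool.Agent.LeoG.H84

open Module

/-- IRG. -/
theorem irg : IrgStmt := by
  intro k K _ _ _ _ s c h2 hs hc u v z ν g hν hz huv hzz hcube hg
  have inj : Function.Injective (algebraMap k K) := (algebraMap k K).injective
  have hνK : algebraMap k K ν ≠ 0 := by
    intro h
    exact hν (inj (by rw [h, map_zero]))
  have hcz : c z ≠ 0 := by
    intro h
    exact hz (c.injective (by rw [h, map_zero]))
  intro X Y hXY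
  have e := hg X Y
  rw [hXY, map_zero, zero_mul] at e
  obtain ⟨a, ha⟩ : ∃ a : K, a = algebraMap k K X * u + algebraMap k K Y * v := ⟨_, rfl⟩
  rw [← ha] at e
  have hca : c a = algebraMap k K X * c u + algebraMap k K Y * c v := by
    rw [ha, map_add, map_mul, map_mul, AlgEquiv.commutes, AlgEquiv.commutes]
  have e2 : a ^ 3 / z = (c a) ^ 3 / c z := by
    rw [map_div₀, map_pow] at e
    linear_combination -e
  rw [div_eq_div_iff hz hcz] at e2
  by_cases h0 : a = 0
  · have hca0 : c a = 0 := by rw [h0, map_zero]
    have n : algebraMap k K ν * s ≠ 0 := mul_ne_zero hνK hs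
    have eX : algebraMap k K X * (algebraMap k K ν * s) = 0 := by
      rw [← huv]
      have := hca0
      rw [hca] at this
      have h0' := h0
      rw [ha] at h0'
      linear_combination c v * h0' - v * this
    have eY : algebraMap k K Y * (algebraMap k K ν * s) = 0 := by
      rw [← huv]
      have := hca0
      rw [hca] at this
      have h0' := h0
      rw [ha] at h0'
      linear_combination -(c u) * h0' + u * this
    have rX := (mul_eq_zero.1 eX).resolve_right n
    have rY := (mul_eq_zero.1 eY).resolve_right n
    exact ⟨inj (by rw [rX, map_zero]), inj (by rw [rY, map_zero])⟩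
  · exfalso
    -- `a³ c z = (c a)³ z`, so `z² (c a)³ = (a ν)³`
    have e3 : z ^ 2 * (c a) ^ 3 = (a * algebraMap k K ν) ^ 3 := by
      linear_combination -z * e2 + a ^ 3 * hzz
    refine hcube (z * c a / (a * algebraMap k K ν)) ?_
    have hn : a * algebraMap k K ν ≠ 0 := mul_ne_zero h0 hνK
    rw [div_pow, div_eq_iff (pow_ne_zero 3 hn), ← e3]
    ring

end Pool.Agent.LeoG.H84
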