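import Mathlib
import Pool.Agent.LeoG.AlgStmts
import Pool.Agent.Helper77_LeoK.Stab

/-!
# Squad LEOG, module OBG
-/

set_option autoImplicit false

namespace Pool.Agent.LeoG.H84

open Pool.Agent.LeoK

lemma cub_gval {k : Type} [Field k] [CharZero k] (v : Q4 k) (X Y : k) :
    cub (v 0) (v 1 / 3) (v 2 / 3) (v 3) X Y = gval v X Y := by
  unfold cub gval
  field_simp

lemma fM_mm {k : Type} [Field k] [CharZero k] (v : Q4 k) :
    27 * fM (v 0) (v 1 / 3) (v 2 / 3) (v 3) = -mm v := by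
  unfold fM fP fR fQ mm dsc
  field_simp
  ring

/-- OBG. -/
theorem obg : ObgStmt := by
  intro k _ _ v hI hM x y z w x' y' z' w' t h1 h2 h
  refine H77.orb k (v 0) (v 1 / 3) (v 2 / 3) (v 3) ?_ ?_ x y z w x' y' z' w' t h1 h2 ?_
  · intro X Y hXY
    rw [cub_gval] at hXY
    exact hI X Y hXY
  · intro X hX
    refine hM (3 * X) ?_
    rw [← fM_mm]
    linear_combination 9 * hX
  · intro X Y
    rw [cub_gval, cub_gval]
    exact h X Y

end Pool.Agent.LeoG.H84
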